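import Mathlib
import Pool.Agent.H79.LVDefs
import Pool.Agent.H79.LV4
import Pool.Agent.H79.LVc3

set_option autoImplicit false

namespace Pool.Agent.Results.MP_a773c0_ag.Least

open Pool.Agent.H79.LV Finsupp

theorem isLeast_of {K : Type} [Field K] {n t e : ℕ}
    (h1 : ∃ T : Finset (Fin n →₀ ℕ), T.card = t ∧ (∀ τ ∈ T, τ.degree = e) ∧ Bad K T)
    (h2 : ∀ e' < e, ∀ T : Finset (Fin n →₀ ℕ), T.card = t → (∀ τ ∈ T, τ.degree = e') →
      ¬ Bad K T) : IsLeast (failDegrees K n t) (n + e) := by
  refine ⟨mem_failDegrees.2 ⟨e, rfl, h1⟩, fun d hd => ?_⟩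
  obtain ⟨e', rfl, T, h3, h4, h5⟩ := mem_failDegrees.1 hd
  by_contra h
  exact h2 e' (by omega) T h3 h4 h5

theorem le_choose (n e : ℕ) (hn : 2 ≤ n) : e + 1 ≤ (n + e - 1).choose e := by
  have h := Nat.choose_le_choose e (show e + 1 ≤ n + e - 1 by omega)
  rwa [Nat.choose_succ_self_right] at h

theorem aux1 (k : ℕ) : k + 11 ≤ (k + 2 + 3).choose (k + 2) + 2 := by
  rw [Nat.choose_symm_add]
  induction k with
  | zero => decide
  | succ k ih =>
    rw [show k + 1 + 2 + 3 = (k + 2 + 2 + 1) + 1 by omega, Nat.choose_succ_succ' _ 2]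
    have := Nat.choose_pos (show 2 ≤ k + 2 + 2 + 1 by omega)
    rw [show k + 2 + 3 = k + 2 + 2 + 1 by omega] at ih
    change k + 1 + 11 ≤ (k + 2 + 2 + 1).choose 2 + (k + 2 + 2 + 1).choose 3 + 2
    omega

theorem aux2 (k : ℕ) : ∀ m : ℕ, k + 2 * m + 12 ≤ (m + 4 + (k + 2) - 1).choose (k + 2) + 2
  | 0 => by
    have h1 := aux1 k
    have h2 : k + 12 ≤ (k + 2 + 3).choose (k + 2) + 2 := by
      rw [Nat.choose_symm_add] at h1 ⊢
      rcases k with _ | k
      · decide
      · have h3 := aux1 k
        rw [Nat.choose_symm_add] at h3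
        rw [show k + 1 + 2 + 3 = (k + 2 + 2 + 1) + 1 by omega, Nat.choose_succ_succ' _ 2]
        have h4 := Nat.choose_le_choose 2 (show 3 ≤ k + 2 + 2 + 1 by omega)
        rw [show k + 2 + 3 = k + 2 + 2 + 1 by omega] at h3
        change k + 1 + 12 ≤ (k + 2 + 2 + 1).choose 2 + (k + 2 + 2 + 1).choose 3 + 2
        have : Nat.choose 3 2 = 3 := by decide
        omega
    rw [show 0 + 4 + (k + 2) - 1 = k + 2 + 3 by omega]
    omega
  | m + 1 => by
    have h1 := aux2 k m
    rw [show m + 1 + 4 + (k + 2) - 1 = (m + 4 + (k + 2) - 1) + 1 by omega,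
      Nat.choose_succ_succ' _ (k + 1)]
    have h2 := le_choose (m + 5) (k + 1) (by omega)
    rw [show m + 5 + (k + 1) - 1 = m + 4 + (k + 2) - 1 by omega] at h2
    change k + 2 * (m + 1) + 12 ≤ (m + 4 + (k + 2) - 1).choose (k + 1) +
      (m + 4 + (k + 2) - 1).choose (k + 2) + 2
    omega

theorem aux3 (k : ℕ) : k + 11 ≤ (3 + (k + 3) - 1).choose (k + 3) + 2 := by
  rw [show 3 + (k + 3) - 1 = k + 3 + 2 by omega, Nat.choose_symm_add]
  induction k with
  | zero => decide
  | succ k ih =>
    rw [show k + 1 + 3 + 2 = (k + 3 + 2) + 1 by omega, Nat.choose_succ_succ' _ 1]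
    change k + 1 + 11 ≤ (k + 3 + 2).choose 1 + (k + 3 + 2).choose 2 + 2
    rw [Nat.choose_one_right]
    omega

/-- The least degree `d(n,t)` of the last syzygy module of a monomial level algebra in `n`
variables of type `t` failing the WLP, for all pairs `(n,t)` where it is finite. -/
theorem result (K : Type) [Field K] [CharZero K] :
    (∀ n, 4 ≤ n → IsLeast (failDegrees K n 2) (n + 6)) ∧
    (∀ n, 3 ≤ n → IsLeast (failDegrees K n 3) (n + 4)) ∧
    IsLeast (failDegrees K 3 4) 8 ∧
    ∀ n t, 3 ≤ n → 4 ≤ t → ¬ (n = 3 ∧ t = 4) →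
      IsLeast (failDegrees K n t)
        (n + sInf {e : ℕ | t + 2 * n ≤ (n + e - 1).choose e + 2}) := by
  refine ⟨fun n hn => isLeast_of (ex_two hn) ?_, fun n hn => isLeast_of (ex_three hn) ?_,
    isLeast_of (e := 5) ex_four ?_, fun n t hn ht hnt => ?_⟩
  · intro e he T hT h
    refine not_bad_of_allGood h ?_
    rw [hT]
    interval_cases e
    exacts [c20, c21, c22, c23, c24, c25]
  · intro e he T hT h
    refine not_bad_of_allGood h ?_
    rw [hT]
    interval_cases e
    exacts [c30, c31, c32, c33]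
  · intro e he T hT h
    by_cases h3 : e ≤ 2
    · intro hb
      have := bound_of_bad h hb
      rw [hT, Fintype.card_fin] at this
      interval_cases e <;> simp [Nat.choose] at this
    · refine not_bad_three h ?_
      rw [hT]
      interval_cases e
      exacts [c43, c44]
  · have hne : {e : ℕ | t + 2 * n ≤ (n + e - 1).choose e + 2}.Nonempty :=
      ⟨t + 2 * n, by have := le_choose n (t + 2 * n) (by omega); rw [Set.mem_ofPred_eq]; omega⟩
    have h1 := Nat.sInf_mem hne
    rw [Set.mem_ofPred_eq] at h1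
    have h2 : ∀ e < sInf {e : ℕ | t + 2 * n ≤ (n + e - 1).choose e + 2},
        ¬ t + 2 * n ≤ (n + e - 1).choose e + 2 := fun e he h =>
      Nat.notMem_of_lt_sInf he (by rw [Set.mem_ofPred_eq]; exact h)
    generalize sInf {e : ℕ | t + 2 * n ≤ (n + e - 1).choose e + 2} = e at h1 h2
    refine isLeast_of ?_ fun e' he' T hT h hb => h2 e' he' ?_
    swap
    · have := bound_of_bad h hb
      rwa [hT, Fintype.card_fin] at this
    have he2 : 2 ≤ e := by
      by_contra h
      interval_cases e
      · simp at h1; omega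
      · simp at h1; omega
    obtain ⟨k, rfl⟩ : ∃ k, e = k + 2 := ⟨e - 2, by omega⟩
    by_cases hn4 : 4 ≤ n
    · obtain ⟨m, rfl⟩ : ∃ m, n = m + 4 := ⟨n - 4, by omega⟩
      refine exists_bad ⟨0, by omega⟩ ⟨1, by omega⟩ ⟨2, by omega⟩ ⟨3, by omega⟩ (by simp) (by simp)
        k (single ⟨0, by omega⟩ k) (degree_single _ _) ?_ t ?_ h1
      · intro j z hz h
        have h3 : z ∈ (single ⟨0, by omega⟩ k + single z 1 + single j 1 : Fin (m + 4) →₀ ℕ).support := by
          simp
        have h4 := h h3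
        rcases hz with rfl | rfl <;> simp at h4
      · rcases k with _ | k
        · omega
        · have h3 := h2 (k + 2) (by omega)
          have h4 := aux2 k m
          omega
    · obtain rfl : n = 3 := by omega
      rcases k with _ | k
      · simp [Nat.choose] at h1; omega
      refine exists_bad 0 1 0 1 (by simp) (by simp) (k + 1) (single 2 (k + 1)) (degree_single _ _)
        ?_ t ?_ h1
      · intro j z hz h
        have h3 : (2 : Fin 3) ∈ (single 2 (k + 1) + single z 1 + single j 1 : Fin 3 →₀ ℕ).support := by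
          simp
        have h4 := h h3
        simp at h4
      · rcases k with _ | k
        · omega
        · have h3 := h2 (k + 3) (by omega)
          have h4 := aux3 k
          omega

end Pool.Agent.Results.MP_a773c0_ag.Least
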